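import Pool.Agent.Y923.EE.PowCount
import Pool.Agent.H340R2.LW

/-!
# The numbers `n ^ π` and `n ^ e` for almost all integers `n`

For all but `C N ^ ε` of the integers `n ≤ N` (and of the positive rational numbers of height at most `N`) neither `n ^ π`
nor `n ^ e` is a root, not even approximately, of a nonzero integer polynomial of bounded degree with coefficients at
most `N ^ A`. More generally, if `1, θ_1, …, θ_k` are linearly independent over the rational numbers, then for all but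
`C N ^ ε` of the positive rational numbers `r` of height at most `N` the numbers `r ^ θ_1, …, r ^ θ_k` satisfy no
approximate relation of bounded degree with coefficients of height at most `N ^ A`, relative to an arbitrary finite
system of complex constants; this applies to `θ_i = π ^ i` and to `θ_i = e ^ i`.

Proof: the functions `z ^ θ_i` are algebraically independent over `ℂ (z)`, the general theorem of helper124
(`Pool.Agent.Y124.excNF`) treats the points between `1` and `2`, and the other points are moved there by powers of `2`,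
whose powers `2 ^ (a θ_i)` are treated as constants; the theorem is uniform in the constants.
-/

set_option autoImplicit false

open NumberField Polynomial

namespace Pool.Agent.Results.MP_ee2255_nt.AlmostAllIntegers

/-- The positive rational numbers `r` with numerator and denominator at most `N` for which there is a polynomial `P` of
degree at most `d` in each of `k` variables, with coefficients of the form `∑ ξ_i c_i` with integers `c_i` of absolute
value at most `N ^ A`, such that the value of `P` at the numbers `r ^ θ_i` is at most `N ^ (-B)` times the absolute value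
of some nonzero coefficient of `P`. -/
def Exceptional {k g : ℕ} (θ : Fin k → ℂ) (d : ℕ) (ξ : Fin g → ℂ) (A B : ℝ) (N : ℕ) : Set ℚ :=
  {r | 0 < r ∧ r.num ≤ N ∧ (r.den : ℤ) ≤ N ∧ ∃ P : MvPolynomial (Fin k) ℂ, (∀ i, P.degreeOf i ≤ d) ∧
    (∀ s, ∃ c : Fin g → ℤ, (∀ i, |((c i : ℤ) : ℝ)| ≤ (N : ℝ) ^ A) ∧ P.coeff s = ∑ i, ξ i * c i) ∧
    ∃ s₀, P.coeff s₀ ≠ 0 ∧ ‖MvPolynomial.aeval (fun i => (r : ℂ) ^ θ i) P‖ ≤ (N : ℝ) ^ (-B) * ‖P.coeff s₀‖}

/-- The positive rational numbers `r` with numerator and denominator at most `N` such that `r ^ π` or `r ^ e` is an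
approximate root of a nonzero integer polynomial of degree at most `d` with coefficients at most `N ^ A`. -/
def ExceptionalPowers (d : ℕ) (A B : ℝ) (N : ℕ) : Set ℚ :=
  {r | 0 < r ∧ r.num ≤ N ∧ (r.den : ℤ) ≤ N ∧ ∃ P : ℤ[X], P ≠ 0 ∧ P.natDegree ≤ d ∧
    (∀ i, |((P.coeff i : ℤ) : ℝ)| ≤ (N : ℝ) ^ A) ∧
    (|aeval ((r : ℝ) ^ Real.pi) P| ≤ (N : ℝ) ^ (-B) ∨ |aeval ((r : ℝ) ^ Real.exp 1) P| ≤ (N : ℝ) ^ (-B))}

/-- the powers of a transcendental number -/
theorem qind_pow (c : ℝ) (hc : Transcendental ℚ c) (k : ℕ) :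
    Y923.EE.QInd (fun i : Fin k => (c : ℂ) ^ ((i : ℕ) + 1)) := by
  intro a b h
  have hc' : Transcendental ℚ (c : ℂ) := by
    intro hh
    exact hc ((isAlgebraic_algebraMap_iff (algebraMap ℝ ℂ).injective).1 hh)
  have hcZ : Transcendental ℤ (c : ℂ) := fun hh =>
    hc' ((IsFractionRing.isAlgebraic_iff ℤ ℚ ℂ).1 hh)
  set p : ℤ[X] := C a + ∑ i : Fin k, monomial ((i : ℕ) + 1) (b i) with hp
  have h1 : aeval (c : ℂ) p = 0 := by
    rw [hp, map_add, map_sum, ← h]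
    simp [aeval_monomial]
  have h2 : p = 0 := (transcendental_iff.1 hcZ) p h1
  constructor
  · have h3 := congrArg (fun q => q.coeff 0) h2
    simp only [hp, coeff_add, coeff_C_zero, finset_sum_coeff, coeff_monomial, coeff_zero] at h3
    simpa using h3
  · funext j
    have h3 := congrArg (fun q => q.coeff ((j : ℕ) + 1)) h2
    simp only [hp, coeff_add, coeff_C_succ, finset_sum_coeff, coeff_monomial, coeff_zero, zero_add] at h3
    rw [Finset.sum_eq_single j] at h3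
    · simpa using h3
    · intro i _ hij
      rw [if_neg]
      intro h4
      exact hij (Fin.ext (by omega))
    · intro h4
      exact absurd (Finset.mem_univ _) h4

/-- one number -/
theorem one_real (c : ℝ) (d : ℕ) (A B : ℝ) (N : ℕ) (r : ℚ) (h0 : 0 < r) (h1 : r.num ≤ N)
    (h2 : (r.den : ℤ) ≤ N) (P : ℤ[X]) (hP0 : P ≠ 0) (hPd : P.natDegree ≤ d)
    (hPc : ∀ i, |((P.coeff i : ℤ) : ℝ)| ≤ (N : ℝ) ^ A) (hs : |aeval ((r : ℝ) ^ c) P| ≤ (N : ℝ) ^ (-B)) :
    r ∈ Exceptional (fun i : Fin 1 => (c : ℂ) ^ ((i : ℕ) + 1)) d (fun _ : Fin 1 => (1 : ℂ)) A B N := by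
  classical
  refine ⟨h0, h1, h2, Y923.EE.auxP (0 : Fin 1) d (fun i => ((P.coeff i : ℤ) : ℂ)),
    fun z => Y923.EE.auxP_degreeOf _ _ _ z, fun s => ?_, ?_⟩
  · rcases Y923.EE.auxP_cases (0 : Fin 1) d (fun i : Fin (d + 1) => ((P.coeff i : ℤ) : ℂ)) s with ⟨i, _, hi⟩ | h
    · exact ⟨fun _ => P.coeff i, fun _ => hPc i, by rw [hi]; simp⟩
    · exact ⟨fun _ => 0, fun _ => by simpa using Real.rpow_nonneg (Nat.cast_nonneg N) A, by rw [h]; simp⟩
  · obtain ⟨k0, hk0⟩ : ∃ k, P.coeff k ≠ 0 := by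
      by_contra hcon
      push Not at hcon
      exact hP0 (Polynomial.ext (by simpa using hcon))
    have hk0d : k0 < d + 1 := Nat.lt_succ_of_le ((Polynomial.le_natDegree_of_ne_zero hk0).trans hPd)
    have hco := Y923.EE.auxP_coeff_single (0 : Fin 1) d (fun i : Fin (d + 1) => ((P.coeff i : ℤ) : ℂ)) ⟨k0, hk0d⟩
    have hco' : (Y923.EE.auxP (0 : Fin 1) d (fun i : Fin (d + 1) => ((P.coeff i : ℤ) : ℂ))).coeff
        (Finsupp.single 0 k0) = ((P.coeff k0 : ℤ) : ℂ) := hco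
    refine ⟨Finsupp.single 0 k0, ?_, ?_⟩
    · rw [hco']
      exact_mod_cast hk0
    · have hnorm : (1 : ℝ) ≤ ‖((P.coeff k0 : ℤ) : ℂ)‖ := by
        rw [Complex.norm_intCast]
        have := Int.one_le_abs hk0
        exact_mod_cast this
      rw [hco', Y923.EE.auxP_aeval]
      have hval : ∑ i : Fin (d + 1), ((P.coeff i : ℤ) : ℂ) *
          ((r : ℂ) ^ ((c : ℂ) ^ (((0 : Fin 1) : ℕ) + 1))) ^ (i : ℕ) = ((aeval ((r : ℝ) ^ c) P : ℝ) : ℂ) := by
        rw [Polynomial.aeval_eq_sum_range' (Nat.lt_succ_of_le hPd), Finset.sum_range]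
        push_cast
        refine Finset.sum_congr rfl fun i _ => ?_
        have h3 : (0 : ℝ) ≤ (r : ℝ) := by exact_mod_cast h0.le
        have h4 : ((((r : ℝ) ^ c : ℝ)) : ℂ) = (r : ℂ) ^ (c : ℂ) := by
          rw [Complex.ofReal_cpow h3]
          simp
        rw [h4]
        simp
      rw [hval, Complex.norm_real]
      have h5 : 0 ≤ (N : ℝ) ^ (-B) := Real.rpow_nonneg (Nat.cast_nonneg N) _
      calc _ ≤ (N : ℝ) ^ (-B) := hs
        _ = (N : ℝ) ^ (-B) * 1 := (mul_one _).symm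
        _ ≤ _ := mul_le_mul_of_nonneg_left hnorm h5

theorem general {k : ℕ} (θ : Fin k → ℂ)
    (hθ : ∀ (a : ℤ) (c : Fin k → ℤ), (a : ℂ) + ∑ i, (c i : ℂ) * θ i = 0 → a = 0 ∧ c = 0) (g d : ℕ) (A ε : ℝ)
    (hε : 0 < ε) :
    ∃ (B C : ℝ) (N₀ : ℕ), 2 ≤ N₀ ∧ ∀ (ξ : Fin g → ℂ) (N : ℕ), N₀ ≤ N → (Exceptional θ d ξ A B N).Finite ∧
      ((Exceptional θ d ξ A B N).ncard : ℝ) ≤ C * (N : ℝ) ^ ε :=
  Y923.EE.countPow θ hθ g d A ε hε

theorem result :
    -- (1) arbitrary exponents, arbitrary constants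
    (∀ (k : ℕ) (θ : Fin k → ℂ),
      (∀ (a : ℤ) (c : Fin k → ℤ), (a : ℂ) + ∑ i, (c i : ℂ) * θ i = 0 → a = 0 ∧ c = 0) →
      ∀ (g d : ℕ) (A ε : ℝ), 0 < ε → ∃ (B C : ℝ) (N₀ : ℕ), ∀ (ξ : Fin g → ℂ) (N : ℕ), N₀ ≤ N →
        (Exceptional θ d ξ A B N).Finite ∧ ((Exceptional θ d ξ A B N).ncard : ℝ) ≤ C * (N : ℝ) ^ ε) ∧
    -- (2) the exponents `c, c ^ 2, …, c ^ k` for `c = π` and `c = e`
    (∀ c : ℝ, c = Real.pi ∨ c = Real.exp 1 → ∀ (k g d : ℕ) (A ε : ℝ), 0 < ε → ∃ (B C : ℝ) (N₀ : ℕ),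
      ∀ (ξ : Fin g → ℂ) (N : ℕ), N₀ ≤ N →
        (Exceptional (fun i : Fin k => (c : ℂ) ^ ((i : ℕ) + 1)) d ξ A B N).Finite ∧
        ((Exceptional (fun i : Fin k => (c : ℂ) ^ ((i : ℕ) + 1)) d ξ A B N).ncard : ℝ) ≤ C * (N : ℝ) ^ ε) ∧
    -- (3) the numbers `r ^ π` and `r ^ e`
    (∀ (d : ℕ) (A ε : ℝ), 0 < ε → ∃ (B C : ℝ) (N₀ : ℕ), ∀ N : ℕ, N₀ ≤ N →
      (ExceptionalPowers d A B N).Finite ∧ ((ExceptionalPowers d A B N).ncard : ℝ) ≤ C * (N : ℝ) ^ ε) := by
  refine ⟨fun k θ hθ g d A ε hε => ?_, fun c hc k g d A ε hε => ?_, fun d A ε hε => ?_⟩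
  · obtain ⟨B, C, N₀, _, H⟩ := general θ hθ g d A ε hε
    exact ⟨B, C, N₀, H⟩
  · have htr : Transcendental ℚ c := by
      rcases hc with rfl | rfl
      · exact Pool.Agent.H340R2.LW.transcendental_pi
      · exact Pool.Agent.H340R2.LW.transcendental_exp_one
    obtain ⟨B, C, N₀, _, H⟩ := general _ (qind_pow c htr k) g d A ε hε
    exact ⟨B, C, N₀, H⟩
  · obtain ⟨B1, C1, N1, h1, H1⟩ := general _ (qind_pow _ Pool.Agent.H340R2.LW.transcendental_pi 1) 1 d A ε hε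
    obtain ⟨B2, C2, N2, h2, H2⟩ := general _ (qind_pow _ Pool.Agent.H340R2.LW.transcendental_exp_one 1) 1 d A ε hε
    refine ⟨max B1 B2, C1 + C2, max N1 N2, fun N hN => ?_⟩
    obtain ⟨f1, g1⟩ := H1 (fun _ => 1) N ((le_max_left _ _).trans hN)
    obtain ⟨f2, g2⟩ := H2 (fun _ => 1) N ((le_max_right _ _).trans hN)
    have hN1 : (1 : ℝ) ≤ N := by
      have : 2 ≤ N := h1.trans ((le_max_left _ _).trans hN)
      exact_mod_cast (by omega : 1 ≤ N)
    have hle1 : (N : ℝ) ^ (-(max B1 B2)) ≤ (N : ℝ) ^ (-B1) :=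
      Real.rpow_le_rpow_of_exponent_le hN1 (neg_le_neg (le_max_left _ _))
    have hle2 : (N : ℝ) ^ (-(max B1 B2)) ≤ (N : ℝ) ^ (-B2) :=
      Real.rpow_le_rpow_of_exponent_le hN1 (neg_le_neg (le_max_right _ _))
    set E1 := Exceptional (fun i : Fin 1 => ((Real.pi : ℝ) : ℂ) ^ ((i : ℕ) + 1)) d (fun _ : Fin 1 => (1 : ℂ)) A B1 N
      with hE1
    set E2 := Exceptional (fun i : Fin 1 => ((Real.exp 1 : ℝ) : ℂ) ^ ((i : ℕ) + 1)) d (fun _ : Fin 1 => (1 : ℂ)) A B2
      N with hE2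
    have hsub : ExceptionalPowers d A (max B1 B2) N ⊆ E1 ∪ E2 := by
      rintro r ⟨hr, hn, hden, P, hP0, hPd, hPc, hs | hs⟩
      · exact Or.inl (one_real _ d A B1 N r hr hn hden P hP0 hPd hPc (hs.trans hle1))
      · exact Or.inr (one_real _ d A B2 N r hr hn hden P hP0 hPd hPc (hs.trans hle2))
    have hfin : (E1 ∪ E2).Finite := f1.union f2
    refine ⟨hfin.subset hsub, ?_⟩
    have h8 : (ExceptionalPowers d A (max B1 B2) N).ncard ≤ E1.ncard + E2.ncard :=
      (Set.ncard_le_ncard hsub hfin).trans (Set.ncard_union_le _ _)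
    have h9 : ((ExceptionalPowers d A (max B1 B2) N).ncard : ℝ) ≤ (E1.ncard : ℝ) + (E2.ncard : ℝ) := by
      exact_mod_cast h8
    rw [add_mul]
    linarith

end Pool.Agent.Results.MP_ee2255_nt.AlmostAllIntegers
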