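import Pool.Agent.Results.MP_ee2255_nt.AlmostAllIntegers
import Pool.Agent.Y854.GM.Win

/-!
# The numbers `r ^ π` and `r ^ e` for all integers, and all rational numbers, in windows

The height `H(r)` of a positive rational number is the maximum of its numerator and denominator, `H(n) = n` for integers.
Let `v ≥ 1` be a sequence with exponent of convergence at most `τ` (for `v_k = k ^ c` this is `1 / c`, for `v_k = c ^ k` or
`k!` it is `0`) and `θ < 1`. For all `α > 0` outside a set of Hausdorff dimension at most `τ / (1 - θ)` and all `d`, `A` there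
is `B` such that for all but finitely many `k`, ALL integers `r`, and all positive rational numbers `r`, with
`|H(r) - α v_k| ≤ v_k ^ θ` have this property: `|P(r ^ π)|, |P(r ^ e)| > H(r) ^ (-B)` for all nonzero integer polynomials
`P` of degree at most `d` with coefficients at most `H(r) ^ A`. Similarly for the joint relations of several powers
`r ^ t_1, …, r ^ t_k` with coefficients in a fixed finite system of complex constants.
-/

set_option autoImplicit false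

open Filter Topology Polynomial
open scoped ENNReal

namespace Pool.Agent.Results.MP_ee2255_nt.EveryIntegerInWindows

open AlmostAllIntegers (Exceptional ExceptionalPowers)

/-- the exponent of convergence of the sequence `v` is at most `τ` -/
def ExpLe (v : ℕ → ℝ) (τ : ℝ) : Prop := ∀ t : ℝ, τ < t → Summable (fun n : ℕ => (v n) ^ (-t))

/-- the height of a positive rational number (for a positive integer this is the integer) -/
def height (r : ℚ) : ℕ := max r.num.natAbs r.den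

lemma finite_height (X : ℕ) : {r : ℚ | height r ≤ X}.Finite := by
  apply Set.Finite.of_finite_image (f := fun r : ℚ => (r.num, r.den))
  · refine ((Set.finite_Icc (-(X : ℤ)) X).prod (Set.finite_Iic X)).subset ?_
    rintro _ ⟨r, hr, rfl⟩
    have h1 : height r ≤ X := hr
    unfold height at h1
    rw [max_le_iff] at h1
    refine ⟨?_, h1.2⟩
    show -(X : ℤ) ≤ r.num ∧ r.num ≤ X
    omega
  · intro r _ r' _ h
    rw [Prod.mk.injEq] at h
    exact Rat.ext h.1 h.2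

lemma one_le_height (r : ℚ) : 1 ≤ height r := (Nat.succ_le_of_lt r.den_pos).trans (le_max_right _ _)

/-- a set with few elements in all `(X / 2, X]` has few elements up to `X` -/
lemma sum_up (S : Set ℚ) {s C : ℝ} (hs : 0 < s) (X₀ : ℕ)
    (h : ∀ X : ℕ, X₀ ≤ X → 1 ≤ X →
      ({r | r ∈ S ∧ (X : ℝ) / 2 < height r ∧ height r ≤ X}.ncard : ℝ) ≤ C * (X : ℝ) ^ s) :
    ∃ C' : ℝ, 0 ≤ C' ∧ ∀ X : ℕ, 1 ≤ X → ({r | r ∈ S ∧ height r ≤ X}.ncard : ℝ) ≤ C' * (X : ℝ) ^ s := by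
  have hfin : ∀ X : ℕ, {r | r ∈ S ∧ height r ≤ X}.Finite := fun X =>
    (finite_height X).subset (fun r hr => hr.2)
  have hrs : (1 / 2 : ℝ) ^ s < 1 := Real.rpow_lt_one (by norm_num) (by norm_num) hs
  have h1 : 0 < 1 - (1 / 2 : ℝ) ^ s := by linarith
  set M : ℝ := ({r | r ∈ S ∧ height r ≤ X₀}.ncard : ℝ) with hM
  set C' : ℝ := max M (C / (1 - (1 / 2 : ℝ) ^ s)) with hC'
  have hC0 : 0 ≤ C' := le_max_of_le_left (Nat.cast_nonneg _)
  refine ⟨C', hC0, fun X => ?_⟩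
  induction X using Nat.strong_induction_on with
  | _ X ih =>
    intro hX
    have hX1 : (1 : ℝ) ≤ X := by exact_mod_cast hX
    have hXs : 0 ≤ (X : ℝ) ^ s := by positivity
    rcases Nat.lt_or_ge X X₀ with h2 | h2
    · have h3 : ({r | r ∈ S ∧ height r ≤ X}.ncard : ℝ) ≤ M := by
        rw [hM]
        apply Nat.cast_le.2
        apply Set.ncard_le_ncard _ (hfin X₀)
        rintro r ⟨h4, h5⟩
        exact ⟨h4, h5.trans h2.le⟩
      calc ({r | r ∈ S ∧ height r ≤ X}.ncard : ℝ) ≤ M := h3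
        _ ≤ C' := le_max_left _ _
        _ ≤ C' * (X : ℝ) ^ s := le_mul_of_one_le_right hC0 (Real.one_le_rpow hX1 hs.le)
    · have hYX : X / 2 < X := Nat.div_lt_self hX (by norm_num)
      have hYr : ((X / 2 : ℕ) : ℝ) ≤ 1 / 2 * X := by
        have := Nat.cast_div_le (α := ℝ) (m := X) (n := 2)
        push_cast at this
        linarith
      have hsplit : {r | r ∈ S ∧ height r ≤ X} ⊆
          {r | r ∈ S ∧ height r ≤ X / 2} ∪ {r | r ∈ S ∧ (X : ℝ) / 2 < height r ∧ height r ≤ X} := by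
        rintro r ⟨h3, h4⟩
        rcases le_or_gt (height r : ℝ) ((X : ℝ) / 2) with h5 | h5
        · left
          refine ⟨h3, ?_⟩
          rw [Nat.le_div_iff_mul_le (by norm_num)]
          have h6 : (height r : ℝ) * 2 ≤ X := by linarith
          exact_mod_cast h6
        · exact Or.inr ⟨h3, h5, h4⟩
      have hf2 : {r | r ∈ S ∧ (X : ℝ) / 2 < height r ∧ height r ≤ X}.Finite :=
        (hfin X).subset (fun r hr => ⟨hr.1, hr.2.2⟩)
      have h4 : ({r | r ∈ S ∧ height r ≤ X / 2}.ncard : ℝ) ≤ C' * ((1 / 2 : ℝ) ^ s * (X : ℝ) ^ s) := by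
        rcases Nat.eq_zero_or_pos (X / 2) with h5 | h5
        · have h6 : {r | r ∈ S ∧ height r ≤ X / 2} = ∅ := by
            rw [Set.eq_empty_iff_forall_notMem]
            rintro r ⟨-, h7⟩
            have := one_le_height r
            omega
          rw [h6, Set.ncard_empty, Nat.cast_zero]
          positivity
        · refine (ih (X / 2) hYX h5).trans (mul_le_mul_of_nonneg_left ?_ hC0)
          rw [← Real.mul_rpow (by norm_num) (by positivity)]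
          exact Real.rpow_le_rpow (Nat.cast_nonneg _) hYr hs.le
      have h5 := h X h2 hX
      have h6 : C ≤ C' * (1 - (1 / 2 : ℝ) ^ s) := by
        rw [← div_le_iff₀ h1]
        exact le_max_right _ _
      calc ({r | r ∈ S ∧ height r ≤ X}.ncard : ℝ)
          ≤ ({r | r ∈ S ∧ height r ≤ X / 2}.ncard : ℝ) +
            ({r | r ∈ S ∧ (X : ℝ) / 2 < height r ∧ height r ≤ X}.ncard : ℝ) := by
              exact_mod_cast (Set.ncard_le_ncard hsplit ((hfin _).union hf2)).trans (Set.ncard_union_le _ _)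
        _ ≤ C' * ((1 / 2 : ℝ) ^ s * (X : ℝ) ^ s) + C * (X : ℝ) ^ s := add_le_add h4 h5
        _ ≤ C' * ((1 / 2 : ℝ) ^ s * (X : ℝ) ^ s) + C' * (1 - (1 / 2 : ℝ) ^ s) * (X : ℝ) ^ s := by
            gcongr
        _ = C' * (X : ℝ) ^ s := by ring

/-- windows for a family of sets `G B N` of rational numbers with at most `C N ^ ε` members -/
lemma rat_windows (G : ℝ → ℕ → Set ℚ)
    (hcount : ∀ ε : ℝ, 0 < ε → ∃ (B C : ℝ) (N₀ : ℕ), ∀ N : ℕ, N₀ ≤ N →
      (G B N).Finite ∧ ((G B N).ncard : ℝ) ≤ C * (N : ℝ) ^ ε)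
    (hmono : ∀ (B B' : ℝ) (n N : ℕ) (r : ℚ), B ≤ B' → 0 ≤ B' → 1 ≤ n → n ≤ N → N ≤ n ^ 2 → r ∈ G (2 * B') n →
      r ∈ G B N)
    {v : ℕ → ℝ} {τ θ : ℝ} (hv : ∀ k, 1 ≤ v k) (hτ : 0 ≤ τ) (hE : ExpLe v τ) (hθ1 : θ < 1) :
    ∃ E : Set ℝ, dimH E ≤ ENNReal.ofReal (τ / (1 - θ)) ∧ ∀ α : ℝ, 0 < α → α ∉ E → ∃ (B : ℝ) (k₀ : ℕ),
      ∀ k : ℕ, k₀ ≤ k → ∀ r : ℚ, |(height r : ℝ) - α * v k| ≤ (v k) ^ θ → r ∉ G B (height r) := by
  have hall : ∀ j : ℕ, ∃ (B : ℝ) (E : Set ℝ), dimH E ≤ ENNReal.ofReal ((1 / ((j : ℝ) + 1) + τ) / (1 - θ)) ∧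
      ∀ α : ℝ, 0 < α → α ∉ E → ∃ k₀ : ℕ, ∀ k : ℕ, k₀ ≤ k → ∀ r ∈ {r : ℚ | r ∈ G B (height r)},
        (v k) ^ θ < |(height r : ℝ) - α * v k| := by
    intro j
    obtain ⟨B, C, N₀, h⟩ := hcount (1 / ((j : ℝ) + 1)) (by positivity)
    obtain ⟨C', hC', h'⟩ := sum_up {r : ℚ | r ∈ G (2 * max B 0) (height r)} (s := 1 / ((j : ℝ) + 1)) (C := C)
      (by positivity) (max N₀ 4) (fun X hX hX1 => by
        obtain ⟨h1, h2⟩ := h X ((le_max_left _ _).trans hX)
        refine le_trans (Nat.cast_le.2 (Set.ncard_le_ncard ?_ h1)) h2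
        rintro r ⟨h3, h4, h5⟩
        have h6 : 4 ≤ X := (le_max_right _ _).trans hX
        refine hmono B (max B 0) (height r) X r (le_max_left _ _) (le_max_right _ _) (one_le_height r) h5 ?_ h3
        have h7 : X < 2 * height r := by
          have : (X : ℝ) < 2 * height r := by linarith
          exact_mod_cast this
        nlinarith)
    obtain ⟨E, h3, h4⟩ := Pool.Agent.Y854.GM.windows {r : ℚ | r ∈ G (2 * max B 0) (height r)}
      (fun r => (height r : ℝ)) hv hτ hE (s := 1 / ((j : ℝ) + 1)) (by positivity) hθ1 (fun ε hε => by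
        refine ⟨C', fun X hX => ?_⟩
        have hX0 : 0 ≤ X := by linarith
        have hsub : {t | t ∈ {r : ℚ | r ∈ G (2 * max B 0) (height r)} ∧ (height t : ℝ) ≤ X} ⊆
            {r | r ∈ {r : ℚ | r ∈ G (2 * max B 0) (height r)} ∧ height r ≤ ⌊X⌋₊} := by
          rintro r ⟨h1, h2⟩
          exact ⟨h1, Nat.le_floor h2⟩
        have hfin : {r | r ∈ {r : ℚ | r ∈ G (2 * max B 0) (height r)} ∧ height r ≤ ⌊X⌋₊}.Finite :=
          (finite_height ⌊X⌋₊).subset (fun r hr => hr.2)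
        refine ⟨hfin.subset hsub, ?_⟩
        calc (({t | t ∈ {r : ℚ | r ∈ G (2 * max B 0) (height r)} ∧ (height t : ℝ) ≤ X}.ncard : ℕ) : ℝ)
            ≤ (({r | r ∈ {r : ℚ | r ∈ G (2 * max B 0) (height r)} ∧ height r ≤ ⌊X⌋₊}.ncard : ℕ) : ℝ) := by
              exact_mod_cast Set.ncard_le_ncard hsub hfin
          _ ≤ C' * ((⌊X⌋₊ : ℕ) : ℝ) ^ (1 / ((j : ℝ) + 1)) := h' ⌊X⌋₊ (Nat.le_floor (by simpa using hX))
          _ ≤ C' * X ^ (1 / ((j : ℝ) + 1)) := by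
              apply mul_le_mul_of_nonneg_left _ hC'
              exact Real.rpow_le_rpow (Nat.cast_nonneg _) (Nat.floor_le hX0) (by positivity)
          _ ≤ C' * X ^ (1 / ((j : ℝ) + 1) + ε) := by
              apply mul_le_mul_of_nonneg_left _ hC'
              exact Real.rpow_le_rpow_of_exponent_le hX (by linarith))
    exact ⟨2 * max B 0, E, h3, h4⟩
  choose B E h1 h2 using hall
  have hlim : Tendsto (fun m : ℕ => ENNReal.ofReal ((1 / ((m : ℝ) + 1) + τ) / (1 - θ))) atTop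
      (𝓝 (ENNReal.ofReal ((0 + τ) / (1 - θ)))) :=
    ENNReal.tendsto_ofReal ((tendsto_one_div_add_atTop_nhds_zero_nat.add_const τ).div_const (1 - θ))
  rw [zero_add] at hlim
  refine ⟨⋂ m, E m, ge_of_tendsto' hlim fun m => (dimH_mono (Set.iInter_subset _ m)).trans (h1 m),
    fun α hα hαE => ?_⟩
  rw [Set.mem_iInter] at hαE
  push Not at hαE
  obtain ⟨j, hj⟩ := hαE
  obtain ⟨k₀, hk⟩ := h2 j α hα hj
  refine ⟨B j, k₀, fun k hk1 r hr hG => ?_⟩
  exact absurd hr (not_le.2 (hk k hk1 r hG))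

lemma pow_aux {A B B' : ℝ} (hA : 0 ≤ A) {n N : ℕ} (hB : B ≤ B') (hB' : 0 ≤ B') (hn : 1 ≤ n) (hnN : n ≤ N)
    (hN : N ≤ n ^ 2) : (n : ℝ) ^ A ≤ (N : ℝ) ^ A ∧ (n : ℝ) ^ (-(2 * B')) ≤ (N : ℝ) ^ (-B) := by
  have hn1 : (1 : ℝ) ≤ n := by exact_mod_cast hn
  have hN1 : (1 : ℝ) ≤ N := by exact_mod_cast hn.trans hnN
  have hnN' : (n : ℝ) ≤ N := by exact_mod_cast hnN
  have hNn : (N : ℝ) ≤ (n : ℝ) ^ 2 := by exact_mod_cast hN
  refine ⟨Real.rpow_le_rpow (by linarith) hnN' hA, ?_⟩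
  calc (n : ℝ) ^ (-(2 * B')) = ((n : ℝ) ^ 2) ^ (-B') := by
        rw [← Real.rpow_natCast, ← Real.rpow_mul (by linarith)]
        congr 1
        push_cast
        ring
    _ ≤ (N : ℝ) ^ (-B') := Real.rpow_le_rpow_of_nonpos (by linarith) hNn (by linarith)
    _ ≤ (N : ℝ) ^ (-B) := Real.rpow_le_rpow_of_exponent_le hN1 (by linarith)

lemma exceptional_mono {k g : ℕ} (t : Fin k → ℂ) (d : ℕ) (ξ : Fin g → ℂ) (A : ℕ) (B B' : ℝ) (n N : ℕ) (r : ℚ)
    (hB : B ≤ B') (hB' : 0 ≤ B') (hn : 1 ≤ n) (hnN : n ≤ N) (hN : N ≤ n ^ 2)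
    (h : r ∈ Exceptional t d ξ (A : ℝ) (2 * B') n) : r ∈ Exceptional t d ξ (A : ℝ) B N := by
  obtain ⟨e1, e2⟩ := pow_aux (Nat.cast_nonneg A) hB hB' hn hnN hN
  obtain ⟨h0, h1, h2, P, h3, h4, s₀, h5, h6⟩ := h
  have hnZ : (n : ℤ) ≤ N := by exact_mod_cast hnN
  refine ⟨h0, h1.trans hnZ, h2.trans hnZ, P, h3, fun s => ?_, s₀, h5, h6.trans ?_⟩
  · obtain ⟨c, h7, h8⟩ := h4 s
    exact ⟨c, fun i => (h7 i).trans e1, h8⟩
  · exact mul_le_mul_of_nonneg_right e2 (norm_nonneg _)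

lemma powers_mono (d : ℕ) (A : ℕ) (B B' : ℝ) (n N : ℕ) (r : ℚ)
    (hB : B ≤ B') (hB' : 0 ≤ B') (hn : 1 ≤ n) (hnN : n ≤ N) (hN : N ≤ n ^ 2)
    (h : r ∈ ExceptionalPowers d (A : ℝ) (2 * B') n) : r ∈ ExceptionalPowers d (A : ℝ) B N := by
  obtain ⟨e1, e2⟩ := pow_aux (Nat.cast_nonneg A) hB hB' hn hnN hN
  obtain ⟨h0, h1, h2, P, h3, h4, h5, h6⟩ := h
  have hnZ : (n : ℤ) ≤ N := by exact_mod_cast hnN
  refine ⟨h0, h1.trans hnZ, h2.trans hnZ, P, h3, h4, fun i => (h5 i).trans e1, ?_⟩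
  rcases h6 with h6 | h6
  · exact Or.inl (h6.trans e2)
  · exact Or.inr (h6.trans e2)

/-- all `d` and `A` at once -/
lemma all_dA {τ θ : ℝ} (W : ℕ → ℕ → ℝ → Prop)
    (hW : ∀ d A : ℕ, ∃ E : Set ℝ, dimH E ≤ ENNReal.ofReal (τ / (1 - θ)) ∧ ∀ α : ℝ, 0 < α → α ∉ E → W d A α) :
    ∃ E : Set ℝ, dimH E ≤ ENNReal.ofReal (τ / (1 - θ)) ∧ ∀ α : ℝ, 0 < α → α ∉ E → ∀ d A : ℕ, W d A α := by
  have hall : ∀ c : ℕ × ℕ, _ := fun c => hW c.1 c.2
  choose E hE1 hE2 using hall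
  refine ⟨⋃ c, E c, ?_, fun α hα hαE d A => ?_⟩
  · rw [dimH_iUnion]
    exact iSup_le hE1
  · rw [Set.mem_iUnion] at hαE
    push Not at hαE
    exact hE2 (d, A) α hα (hαE (d, A))

/-- **Theorem.** Let `v ≥ 1` be a sequence of exponent of convergence at most `τ ≥ 0` and `θ < 1`. (1) There is a set `E` of
Hausdorff dimension at most `τ / (1 - θ)` such that for each `α > 0` outside `E` and all `d`, `A` there are `B` and `k₀` such
that for all `k ≥ k₀` and ALL rational numbers `r > 0` with `|H(r) - α v_k| ≤ v_k ^ θ` (in particular all integers `r` with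
`|r - α v_k| ≤ v_k ^ θ`) one has `|P(r ^ π)| > H(r) ^ (-B)` and `|P(r ^ e)| > H(r) ^ (-B)` for all nonzero `P ∈ ℤ[X]` of
degree at most `d` with coefficients at most `H(r) ^ A`. (2) If `1, t_1, …, t_k` are linearly independent over `ℚ`, and
`ξ_1, …, ξ_g` complex constants, there is such a set `E` such that for each `α > 0` outside `E` and all `d`, `A` there are
`B` and `k₀` such that for all `k ≥ k₀` no rational `r > 0` with `|H(r) - α v_k| ≤ v_k ^ θ` is exceptional: the numbers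
`r ^ t_1, …, r ^ t_k` satisfy no relation, up to `H(r) ^ (-B)` times one of its nonzero coefficients, of degree at most `d`
in each of them, with coefficients `∑ ξ_i c_i`, `|c_i| ≤ H(r) ^ A`. (3) This holds for `t_i = π ^ i` and `t_i = e ^ i`. The
sequences `v_k = (k + 1) ^ c` and `v_k = c ^ k` have exponent of convergence at most `1 / c` and `0`. -/
theorem result :
    (∀ (v : ℕ → ℝ) (τ θ : ℝ), (∀ n, 1 ≤ v n) → 0 ≤ τ → ExpLe v τ → θ < 1 →
      (∃ E : Set ℝ, dimH E ≤ ENNReal.ofReal (τ / (1 - θ)) ∧ ∀ α : ℝ, 0 < α → α ∉ E → ∀ d A : ℕ,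
        ∃ (B : ℝ) (k₀ : ℕ), ∀ k : ℕ, k₀ ≤ k → ∀ r : ℚ, 0 < r → |(height r : ℝ) - α * v k| ≤ (v k) ^ θ →
          ∀ P : ℤ[X], P ≠ 0 → P.natDegree ≤ d → (∀ i, |((P.coeff i : ℤ) : ℝ)| ≤ (height r : ℝ) ^ A) →
            (height r : ℝ) ^ (-B) < |aeval ((r : ℝ) ^ Real.pi) P| ∧
            (height r : ℝ) ^ (-B) < |aeval ((r : ℝ) ^ Real.exp 1) P|) ∧
      (∀ (m : ℕ) (t : Fin m → ℂ),
        (∀ (a : ℤ) (c : Fin m → ℤ), (a : ℂ) + ∑ i, (c i : ℂ) * t i = 0 → a = 0 ∧ c = 0) →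
        ∀ (g : ℕ) (ξ : Fin g → ℂ),
        ∃ E : Set ℝ, dimH E ≤ ENNReal.ofReal (τ / (1 - θ)) ∧ ∀ α : ℝ, 0 < α → α ∉ E → ∀ d A : ℕ,
          ∃ (B : ℝ) (k₀ : ℕ), ∀ k : ℕ, k₀ ≤ k → ∀ r : ℚ, |(height r : ℝ) - α * v k| ≤ (v k) ^ θ →
            r ∉ Exceptional t d ξ (A : ℝ) B (height r)) ∧
      (∀ c : ℝ, c = Real.pi ∨ c = Real.exp 1 → ∀ (m g : ℕ) (ξ : Fin g → ℂ),
        ∃ E : Set ℝ, dimH E ≤ ENNReal.ofReal (τ / (1 - θ)) ∧ ∀ α : ℝ, 0 < α → α ∉ E → ∀ d A : ℕ,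
          ∃ (B : ℝ) (k₀ : ℕ), ∀ k : ℕ, k₀ ≤ k → ∀ r : ℚ, |(height r : ℝ) - α * v k| ≤ (v k) ^ θ →
            r ∉ Exceptional (fun i : Fin m => (c : ℂ) ^ ((i : ℕ) + 1)) d ξ (A : ℝ) B (height r))) ∧
    (∀ c : ℝ, 0 < c → ExpLe (fun n : ℕ => ((n : ℝ) + 1) ^ c) (1 / c)) ∧
    (∀ c : ℝ, 1 < c → ExpLe (fun n : ℕ => c ^ n) 0) := by
  refine ⟨fun v τ θ hv hτ hE hθ1 => ⟨?_, fun m t ht g ξ => ?_, fun c hc m g ξ => ?_⟩,
    fun κ hκ => Pool.Agent.Y854.GM.expLe_pow κ hκ, fun κ hκ => Pool.Agent.Y854.GM.expLe_geom κ hκ⟩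
  · apply all_dA
    intro d A
    obtain ⟨E, h1, h2⟩ := rat_windows (fun B N => ExceptionalPowers d (A : ℝ) B N)
      (fun ε hε => by
        obtain ⟨B, C, N₀, h⟩ := AlmostAllIntegers.result.2.2 d (A : ℝ) ε hε
        exact ⟨B, C, N₀, h⟩)
      (fun B B' n N r hB hB' hn hnN hN h => powers_mono d A B B' n N r hB hB' hn hnN hN h) hv hτ hE hθ1
    refine ⟨E, h1, fun α hα hαE => ?_⟩
    obtain ⟨B, k₀, hk⟩ := h2 α hα hαE
    refine ⟨B, k₀, fun k hk1 r hr0 hr P hP0 hPd hPc => ?_⟩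
    by_contra hcon
    rw [not_and_or, not_lt, not_lt] at hcon
    have hnum : r.num ≤ (height r : ℤ) := by
      have h3 : 0 < r.num := Rat.num_pos.2 hr0
      have h4 : r.num.natAbs ≤ height r := le_max_left _ _
      omega
    have hden : ((r.den : ℕ) : ℤ) ≤ (height r : ℤ) := by
      have h4 : r.den ≤ height r := le_max_right _ _
      exact_mod_cast h4
    exact hk k hk1 r hr ⟨hr0, hnum, hden, P, hP0, hPd, fun i => by
      rw [Real.rpow_natCast]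
      exact hPc i, hcon⟩
  · apply all_dA
    intro d A
    exact rat_windows (fun B N => Exceptional t d ξ (A : ℝ) B N)
      (fun ε hε => by
        obtain ⟨B, C, N₀, h⟩ := AlmostAllIntegers.result.1 m t ht g d (A : ℝ) ε hε
        exact ⟨B, C, N₀, fun N hN => h ξ N hN⟩)
      (fun B B' n N r hB hB' hn hnN hN h => exceptional_mono t d ξ A B B' n N r hB hB' hn hnN hN h) hv hτ hE hθ1
  · apply all_dA
    intro d A
    exact rat_windows (fun B N => Exceptional (fun i : Fin m => (c : ℂ) ^ ((i : ℕ) + 1)) d ξ (A : ℝ) B N)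
      (fun ε hε => by
        obtain ⟨B, C, N₀, h⟩ := AlmostAllIntegers.result.2.1 c hc m g d (A : ℝ) ε hε
        exact ⟨B, C, N₀, fun N hN => h ξ N hN⟩)
      (fun B B' n N r hB hB' hn hnN hN h => exceptional_mono _ d ξ A B B' n N r hB hB' hn hnN hN h) hv hτ hE hθ1

end Pool.Agent.Results.MP_ee2255_nt.EveryIntegerInWindows
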