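import Pool.Agent.Y668.PE.Prim
import Pool.Agent.Y124.NFPoly

/-!
# `π`, `e`, `p^π`, `p^e` for all primes `p ≤ P`, as values of functions: almost all algebraic points

Put `M(x) = -i log x`, with the branch `M(-1) = π`, and `E(x) = e^(2+x)`, so `E(-1) = e`.  Let `b_1, …, b_h` be
multiplicatively independent positive real numbers, for instance distinct primes.  We show that at almost all points
`x` (and `n`-tuples of points) of number fields of bounded degree the numbers `M`, `E`, `b_j^M`, `b_j^E` do not satisfy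
any (approximate) algebraic relation of bounded degree and polynomially bounded height, relative to arbitrary complex
constants.  At `x = -1` the numbers are `π`, `e`, `b_j^π`, `b_j^e`.
-/

set_option autoImplicit false

open NumberField

namespace Pool.Agent.Results.MP_ee2255_nt.PrimesToArguments

/-- `M(x) = -i log x`, with the branch `M(-1) = π`, outside the half line `[0, ∞)` -/
noncomputable def M (x : ℂ) : ℂ := Real.pi - Complex.I * Complex.log (-x)

/-- `E(x) = e^(2+x)` -/
noncomputable def E (x : ℂ) : ℂ := Complex.exp (2 + x)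

/-- The numbers `M`, `b_j^M` (first summand) and `E`, `b_j^E` (second summand) at `x`. -/
noncomputable def values {h : ℕ} (b : Fin h → ℝ) (x : ℂ) : Option (Fin h) ⊕ Option (Fin h) → ℂ
  | Sum.inl none => M x
  | Sum.inl (some j) => (b j : ℂ) ^ M x
  | Sum.inr none => E x
  | Sum.inr (some j) => (b j : ℂ) ^ E x

/-- The elements of the number field `F` with image in `L` which are quotients of two integers of `F` all of whose
conjugates have absolute value at most `T`. -/
def Points (F : Type) [Field F] [NumberField F] (ι : F →+* ℂ) (L : Set ℂ) (T : ℝ) : Set F :=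
  {x | ι x ∈ L ∧ ∃ a b : 𝓞 F, b ≠ 0 ∧ (∀ φ : F →+* ℂ, ‖φ a‖ ≤ T ∧ ‖φ b‖ ≤ T) ∧ x = a / b}

/-- The `n`-tuples `t` of points of `F` for which there is a polynomial `P` of degree at most `d` in each variable, with
coefficients of the form `∑ ξ_i ι(c_i)`, where the `c_i` are integers of `F` all of whose conjugates have absolute value
at most `T ^ A`, such that the value of `P` at the `(2h+2) n` numbers `values b (t_j)`, `j ≤ n`, is at most `T ^ (-B)`
times the absolute value of some nonzero coefficient of `P`. -/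
def Exceptional {h : ℕ} (b : Fin h → ℝ) (n d : ℕ) {g : ℕ} (F : Type) [Field F] [NumberField F] (ι : F →+* ℂ)
    (ξ : Fin g → ℂ) (L : Set ℂ) (A B T : ℝ) : Set (Fin n → F) :=
  {t | (∀ j, t j ∈ Points F ι L T) ∧ ∃ P : MvPolynomial (Fin n × (Option (Fin h) ⊕ Option (Fin h))) ℂ,
    (∀ x, P.degreeOf x ≤ d) ∧
    (∀ s, ∃ c : Fin g → 𝓞 F, (∀ i (φ : F →+* ℂ), ‖φ (c i)‖ ≤ T ^ A) ∧ P.coeff s = ∑ i, ξ i * ι (c i)) ∧
    ∃ s₀, P.coeff s₀ ≠ 0 ∧
      ‖MvPolynomial.aeval (fun x : Fin n × (Option (Fin h) ⊕ Option (Fin h)) => values b (ι (t x.1)) x.2) P‖ ≤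
        T ^ (-B) * ‖P.coeff s₀‖}

open Pool.Agent.Y668.PE in
/-- the functions in the form used by the library -/
noncomputable def fam {h : ℕ} (b : Fin h → ℝ) (y : Option (Fin h) ⊕ Option (Fin h)) (x : ℂ) : ℂ :=
  Sum.elim (fun (y : Option (Fin h)) w => phiB b y (Complex.exp (Complex.I * w))) (F2B b) y (arg0 x)

open Pool.Agent.Y668.PE in
theorem values_eq {h : ℕ} (b : Fin h → ℝ) (hb : ∀ j, 0 < b j) (x : ℂ) (hx : -x ∈ Complex.slitPlane)
    (y : Option (Fin h) ⊕ Option (Fin h)) : values b x y = fam b y.swap x := by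
  have h0 : x ≠ 0 := slit_ne hx
  have hM : M x = arg0 x := rfl
  have hexp := exp_arg0 x h0
  rcases y with (_ | j) | (_ | j)
  · rfl
  · change (b j : ℂ) ^ M x = Complex.exp (Real.log (b j) * arg0 x)
    rw [hM, Complex.cpow_def_of_ne_zero (by exact_mod_cast (hb j).ne'), Complex.ofReal_log (hb j).le]
  · change E x = Complex.exp (2 + Complex.exp (Complex.I * arg0 x))
    rw [hexp]
    rfl
  · change (b j : ℂ) ^ E x = Complex.exp (Real.log (b j) * Complex.exp (2 + Complex.exp (Complex.I * arg0 x)))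
    rw [hexp, Complex.cpow_def_of_ne_zero (by exact_mod_cast (hb j).ne'), Complex.ofReal_log (hb j).le]
    rfl

theorem fam_an {h : ℕ} (b : Fin h → ℝ) (y : Option (Fin h) ⊕ Option (Fin h)) (t : ℂ)
    (ht : -t ∈ Complex.slitPlane) : AnalyticAt ℂ (fam b y) t := by
  open Pool.Agent.Y668.PE in
  unfold fam
  have h1 := arg0_analytic t ht
  rcases y with i | i
  · exact (phiB_an b i _).comp_of_eq (analyticAt_const.mul h1).cexp rfl
  · exact (F2B_an b i _ (arg0_re_pos t)).comp_of_eq h1 rfl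

theorem value_at {h : ℕ} (b : Fin h → ℝ) (hb : ∀ j, 0 < b j) :
    values b (-1) (Sum.inl none) = (Real.pi : ℂ) ∧ values b (-1) (Sum.inr none) = (Real.exp 1 : ℂ) ∧
    (∀ j, values b (-1) (Sum.inl (some j)) = ((b j ^ Real.pi : ℝ) : ℂ)) ∧
    ∀ j, values b (-1) (Sum.inr (some j)) = ((b j ^ Real.exp 1 : ℝ) : ℂ) := by
  have hM : M (-1) = Real.pi := by simp [M]
  have hE : E (-1) = ((Real.exp 1 : ℝ) : ℂ) := by
    unfold E
    rw [Complex.ofReal_exp]
    norm_num
  refine ⟨hM, hE, fun j => ?_, fun j => ?_⟩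
  · change (b j : ℂ) ^ M (-1) = _
    rw [hM, Complex.ofReal_cpow (hb j).le]
  · change (b j : ℂ) ^ E (-1) = _
    rw [hE, Complex.ofReal_cpow (hb j).le]

/-- (1) At `x = -1` the numbers are `π`, `e`, `b_j^π`, `b_j^e`.  (2) Distinct primes are multiplicatively independent.
(3) Let `b_1, …, b_h` be multiplicatively independent positive real numbers and `L` a compact set in `ℂ` disjoint from
the half line `[0, ∞)`.  For all `m`, `n`, `g`, `d`, `A` and `ε > 0` there are `B`, `C`, `T₀` such that for every number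
field `F` of degree at most `m`, every embedding of `F` in `ℂ`, all complex numbers `ξ_1, …, ξ_g` and all `T ≥ T₀` the
number of exceptional `n`-tuples is at most `C T^ε N^(n - 1)`, where `N` is the number of points. -/
theorem result :
    (∀ (h : ℕ) (b : Fin h → ℝ), (∀ j, 0 < b j) →
      values b (-1) (Sum.inl none) = (Real.pi : ℂ) ∧ values b (-1) (Sum.inr none) = (Real.exp 1 : ℂ) ∧
      (∀ j, values b (-1) (Sum.inl (some j)) = ((b j ^ Real.pi : ℝ) : ℂ)) ∧
      ∀ j, values b (-1) (Sum.inr (some j)) = ((b j ^ Real.exp 1 : ℝ) : ℂ)) ∧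
    (∀ (h : ℕ) (p : Fin h → ℕ), (∀ j, (p j).Prime) → Function.Injective p →
      ∀ v : Fin h → ℤ, ∑ j, (v j : ℝ) * Real.log ((p j : ℕ) : ℝ) = 0 → v = 0) ∧
    ∀ (h : ℕ) (b : Fin h → ℝ), (∀ j, 0 < b j) → (∀ v : Fin h → ℤ, ∑ j, (v j : ℝ) * Real.log (b j) = 0 → v = 0) →
    ∀ (m n g d : ℕ) (L : Set ℂ), IsCompact L → (∀ x ∈ L, x.re < 0 ∨ x.im ≠ 0) → ∀ (A ε : ℝ), 0 < ε →
    ∃ B C T₀ : ℝ, ∀ (F : Type) [Field F] [NumberField F], Module.finrank ℚ F ≤ m → ∀ (ι : F →+* ℂ) (ξ : Fin g → ℂ)
      (T : ℝ), T₀ ≤ T → (Exceptional b n d F ι ξ L A B T).Finite ∧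
        ((Exceptional b n d F ι ξ L A B T).ncard : ℝ) ≤ C * T ^ ε * ((Points F ι L T).ncard : ℝ) ^ (n - 1) := by
  classical
  refine ⟨fun h b hb => value_at b hb, fun h p hp hinj v hv => Pool.Agent.Y668.PE.prime_indep p hp hinj v hv,
    fun h b hb hbi m n g d L hL hL' A ε hε => ?_⟩
  have hsl : ∀ t ∈ L, -t ∈ Complex.slitPlane := by
    intro t ht
    rcases hL' t ht with h | h
    · left
      simpa using h
    · right
      simpa using h
  let f : Option (Fin h) ⊕ Option (Fin h) → ℂ → ℂ := fun y => fam b y.swap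
  have hind : ∀ t ∈ L, Pool.Agent.Y124.LocInd f t := by
    intro t ht P hP
    have hinj : Function.Injective (Option.map (Sum.swap : Option (Fin h) ⊕ Option (Fin h) → _)) :=
      Option.map_injective (Equiv.sumComm _ _).injective
    apply MvPolynomial.rename_injective _ hinj
    rw [map_zero]
    apply Pool.Agent.Y668.PE.B_locInd b hbi t (hsl t ht)
    filter_upwards [hP] with z hz
    rw [MvPolynomial.eval_rename, ← hz]
    congr 1
    congr 1
    funext o
    rcases o with _ | i <;> rfl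
  obtain ⟨B, C, T₀, hC, hT₀, H⟩ := Pool.Agent.Y124.excNF (h := Fin g) m n d (fun t i => f i t) L
    (fun g' => Pool.Agent.Y124.oneV_of g' f L hL (fun i t ht => fam_an b i.swap t (hsl t ht)) hind) A ε hε
  refine ⟨B, C, T₀, fun F _ _ hF ι ξ T hT => ?_⟩
  have hT0 : 0 ≤ T := by linarith
  have hP : Points F ι L T = {x : F | Pool.Agent.Y120.HtLe F T x ∧ ι x ∈ L} := by
    ext x
    constructor
    · rintro ⟨h1, a, b, hb, hab, hx⟩
      exact ⟨⟨a, b, hb, Pool.Agent.Y120.house_le F hT0 fun φ => (hab φ).1,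
        Pool.Agent.Y120.house_le F hT0 fun φ => (hab φ).2, hx⟩, h1⟩
    · rintro ⟨⟨a, b, hb, ha, hb', hx⟩, h1⟩
      exact ⟨h1, a, b, hb, fun φ => ⟨(Pool.Agent.Y120.house_ge F _ φ).trans ha,
        (Pool.Agent.Y120.house_ge F _ φ).trans hb'⟩, hx⟩
  have hsub : Exceptional b n d F ι ξ L A B T ⊆ Pool.Agent.Y124.ExcNF n d F ι ξ (fun t i => f i t) L A B T := by
    rintro t ⟨ht, P, hPd, hPc, s₀, hs₀, hs⟩
    refine ⟨fun j => ?_, P, hPd, hPc, s₀, hs₀, ?_⟩
    · have h1 := ht j
      rw [hP] at h1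
      exact h1
    · refine le_trans (le_of_eq ?_) hs
      congr 1
      congr 1
      congr 1
      funext x
      exact (values_eq b hb _ (hsl _ (ht x.1).1) x.2).symm
  obtain ⟨h1, h2⟩ := H F hF ι ξ T hT
  refine ⟨h1.subset hsub, ?_⟩
  rw [hP]
  exact le_trans (by exact_mod_cast Set.ncard_le_ncard hsub h1) h2

end Pool.Agent.Results.MP_ee2255_nt.PrimesToArguments
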