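import Mathlib
import Pool.Agent.Y918.GB.Mat

/-!
# Powers with irrational exponents of random elements of groups of algebraic numbers

For every `j` let `λ_{j,1}, …, λ_{j,k}` be logarithms of algebraic numbers, linearly independent over
`ℚ` (for instance the logarithms of `k` primes), and let `x_{j,1}, …, x_{j,d}` be complex numbers such
that `1, x_{j,1}, …, x_{j,d}` are linearly independent over `ℚ`; for instance `d = 1` and `x_{j,1}` is
`π` or `e`.  For a matrix `a = (a_{j,r})` with entries in a finite set `A` of rational numbers we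
consider the logarithms `L_j = ∑_r a_{j,r} λ_{j,r}` of the numbers `m_j = exp L_j`, products of powers
of the algebraic numbers `exp λ_{j,r}`, and the `n (d + 1)` numbers

  `ζ_j + log m_j`,  `η_{j,l} m_j ^ (x_{j,l})`,   `j = 1, …, n`, `l = 1, …, d`,

where `log m_j = L_j`, `m_j ^ x = exp (x L_j)`, the `ζ_j` are arbitrary complex numbers and
`η_{j,l} = exp ξ_{j,l}` are arbitrary nonzero complex numbers.  For all `d`, `n`, `D`, `N` there are
`k₀`, `C` and `δ > 0` such that for all `k ≥ k₀` and every `ℚ̄`-space `W` of complex numbers of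
dimension at most `N`, for instance the space of the polynomials in `π` and `e` of degree less than
`M` in each, `M ^ 2 ≤ N`, these numbers satisfy no nonzero polynomial relation with coefficients in
`W` of degree at most `D` in each variable, for all but `C |A|^(n k - δ k)` of the `|A|^(n k)`
matrices `a`.

In particular, for `d = 1`, `x_{1,1} = π`, `x_{2,1} = e`, the numbers `log m_1, m_1 ^ π, log m_2,
m_2 ^ e` satisfy no relation of degree at most `D` over the polynomials in `π` and `e` of bounded
degree, if `m_1` and `m_2` are products over the subsets of a set of `k` primes, for all but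
`C 2^((2 - δ) k)` of the `2^(2 k)` pairs of subsets.

The proof.  The logarithms are linearly independent over `ℚ̄` by Baker's theorem.  By the six
exponentials theorem (and the theorem of Gelfond-Schneider) for every integer vector `c ≠ 0` the
rational vectors `q` for which `exp ((∑ c_l x_l) ∑ q_r λ_r)` is algebraic form a space of dimension at
most two.  So random vectors are independent and avoid these spaces.  By the cube theorem in additive
and multiplicative variables (`Pool.Agent.Y918.GB.mcubeE`) the exceptional vectors contain no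
nondegenerate grid, and an iterated Cauchy-Schwarz inequality shows that they are exponentially rare
(`Pool.Agent.Y918.GB.block`).
-/

set_option autoImplicit false

namespace Pool.Agent.Results.MP_ee2255_nt.RandomPowers

/-- The numbers `y_i` satisfy a nonzero polynomial relation with coefficients in `W`, of degree at
most `D` in each of them. -/
def Related (W : Submodule (algebraicClosure ℚ ℂ) ℂ) (D : ℕ) {ι : Type} (y : ι → ℂ) : Prop :=
  ∃ p : MvPolynomial ι ℂ, p ≠ 0 ∧ (∀ M, p.coeff M ∈ W) ∧ (∀ i, p.degreeOf i ≤ D) ∧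
    MvPolynomial.eval y p = 0

/-- The logarithm `L_j` of `m_j`. -/
noncomputable def logm {n k : ℕ} (lam : Fin n → Fin k → ℂ) (a : Fin n → Fin k → ℚ) (j : Fin n) : ℂ :=
  ∑ r : Fin k, (a j r : ℂ) * lam j r

/-- The numbers `ζ_j + log m_j` (index `(j, none)`) and `exp (ξ_{j,l}) m_j ^ (x_{j,l})` (index
`(j, some l)`). -/
noncomputable def numbers {n k d : ℕ} (lam : Fin n → Fin k → ℂ) (x : Fin n → Fin d → ℂ)
    (ζ : Fin n → ℂ) (ξ : Fin n → Fin d → ℂ) (a : Fin n → Fin k → ℚ) :
    Fin n × Option (Fin d) → ℂ
  | (j, none) => ζ j + logm lam a j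
  | (j, some l) => Complex.exp (ξ j l + x j l * logm lam a j)

open Classical in
/-- **Main result.** -/
theorem result (d n D N : ℕ) : ∃ (k₀ C : ℕ) (δ : ℝ), 0 < δ ∧ ∀ k ≥ k₀,
    ∀ lam : Fin n → Fin k → ℂ, (∀ j r, IsAlgebraic ℚ (Complex.exp (lam j r))) →
    (∀ j, LinearIndependent ℚ (lam j)) →
    ∀ x : Fin n → Fin d → ℂ, (∀ j, LinearIndependent ℚ (Fin.cons 1 (x j) : Fin (d + 1) → ℂ)) →
    ∀ A : Finset ℚ, A.Nonempty →
    ∀ W : Submodule (algebraicClosure ℚ ℂ) ℂ, Module.Finite (algebraicClosure ℚ ℂ) W →
    Module.finrank (algebraicClosure ℚ ℂ) W ≤ N → ∀ (ζ : Fin n → ℂ) (ξ : Fin n → Fin d → ℂ),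
    (((Fintype.piFinset fun _ : Fin n => Fintype.piFinset fun _ : Fin k => A).filter
      (fun a : Fin n → Fin k → ℚ => Related W D (numbers lam x ζ ξ a))).card : ℝ) ≤
      C * (A.card : ℝ) ^ ((n * k : ℝ) - δ * k) := by
  obtain ⟨k₀, C, δ, hδ, h⟩ := Pool.Agent.Y918.GB.logs d n D N
  refine ⟨k₀, C, δ, hδ, fun k hk lam halg hlam x hx A hA W hW hWN ζ ξ => ?_⟩
  refine le_trans ?_ (h k hk x lam hx hlam halg A hA W hW hWN ζ ξ)
  apply Nat.cast_le.2
  apply Finset.card_le_card
  intro a ha
  rw [Finset.mem_filter] at ha ⊢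
  refine ⟨ha.1, ?_⟩
  have h1 : (fun p : Fin n × Option (Fin d) => p.2.elim (ζ p.1 + ∑ r, (a p.1 r : ℂ) * lam p.1 r)
      (fun l => Complex.exp (ξ p.1 l + x p.1 l * ∑ r, (a p.1 r : ℂ) * lam p.1 r))) =
      numbers lam x ζ ξ a := by
    funext p
    obtain ⟨j, l⟩ := p
    cases l <;> rfl
  rw [h1]
  exact ha.2

end Pool.Agent.Results.MP_ee2255_nt.RandomPowers
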